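import Mathlib

/-!
Definitions for the statements on extremal points of positive Boolean functions.
Points are functions `Fin m → Bool` with the componentwise order (`false ≤ true`), and
positive functions are the monotone functions `(Fin m → Bool) → Bool`.
-/

set_option autoImplicit false

namespace Pool.Agent.Lib.MP_61c8b8_co

/-- Coordinate `i` is relevant for `f`: some two points that differ only in coordinate `i`
get different values. -/
def Relevant {m : ℕ} (f : (Fin m → Bool) → Bool) (i : Fin m) : Prop :=
  ∃ x y : Fin m → Bool, (∀ j, j ≠ i → x j = y j) ∧ f x ≠ f y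

/-- `x` is a minimal one of `f` (the order on points is componentwise). -/
def MinimalOne {m : ℕ} (f : (Fin m → Bool) → Bool) (x : Fin m → Bool) : Prop :=
  f x = true ∧ ∀ y, y < x → f y = false

/-- `x` is a maximal zero of `f`. -/
def MaximalZero {m : ℕ} (f : (Fin m → Bool) → Bool) (x : Fin m → Bool) : Prop :=
  f x = false ∧ ∀ y, x < y → f y = true

/-- The extremal points of `f`: its minimal ones together with its maximal zeros. -/
def extremalPoints {m : ℕ} (f : (Fin m → Bool) → Bool) : Set (Fin m → Bool) :=
  {x | MinimalOne f x ∨ MaximalZero f x}

/-- The value at `x` of the nested expression `x_{i₁} ∘₁ (x_{i₂} ∘₂ (⋯ ∘ x_l))`, given by the list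
of pairs `(iⱼ, ∘ⱼ)` (`true` means `∧`, `false` means `∨`) and the last variable `l`. -/
def nested {m : ℕ} : List (Fin m × Bool) → Fin m → (Fin m → Bool) → Bool
  | [], l, x => x l
  | (i, true) :: L, l, x => x i && nested L l x
  | (i, false) :: L, l, x => x i || nested L l x

/-- `f` is linear read-once: it is constant, or its relevant variables can be listed (without
repetition) so that `f` is the nested expression in this order for some operations. -/
def LinearReadOnce {m : ℕ} (f : (Fin m → Bool) → Bool) : Prop :=
  (∀ x y, f x = f y) ∨
    ∃ (L : List (Fin m × Bool)) (l : Fin m), (L.map Prod.fst ++ [l]).Nodup ∧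
      (∀ i, i ∈ L.map Prod.fst ++ [l] ↔ Relevant f i) ∧ ∀ x, f x = nested L l x

end Pool.Agent.Lib.MP_61c8b8_co
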