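import Pool.Agent.Lib.MP_61c8b8_co.Nested
import Pool.Agent.Lib.MP_61c8b8_co.Defs

set_option autoImplicit false

open Finset

namespace Pool.Agent.Lib.MP_61c8b8_co

section

open Classical

variable {m : ℕ}

/-- the point of a set -/
def pt (A : Finset (Fin m)) : Fin m → Bool := fun i => decide (i ∈ A)

/-- the set of a point -/
def st (x : Fin m → Bool) : Finset (Fin m) := univ.filter fun i => x i = true

lemma pt_st (x : Fin m → Bool) : pt (st x) = x := by
  funext i
  by_cases h : x i = true
  · simp [pt, st, h]
  · simp [pt, st, h]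

lemma st_pt (A : Finset (Fin m)) : st (pt A) = A := by
  ext i; simp [pt, st]

lemma pt_le_pt {A B : Finset (Fin m)} : pt A ≤ pt B ↔ A ⊆ B := by
  constructor
  · intro h i hi
    have h1 := h i
    simp only [pt, hi, decide_true] at h1
    by_contra hB
    simp only [hB, decide_false] at h1
    have h2 : ¬ (true ≤ false) := by clear h1; decide
    exact h2 h1
  · intro h i
    by_cases hi : i ∈ A
    · simp [pt, hi, h hi]
    · simp [pt, hi]

lemma pt_injective : Function.Injective (pt (m := m)) := by
  intro A B h
  rw [← st_pt A, ← st_pt B, h]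

lemma pt_lt_pt {A B : Finset (Fin m)} : pt A < pt B ↔ A ⊂ B := by
  rw [lt_iff_le_not_ge, pt_le_pt, pt_le_pt]; rfl

/-- the set function of a Boolean function -/
def SF (f : (Fin m → Bool) → Bool) : Finset (Fin m) → Prop := fun A => f (pt A) = true

lemma SF_mono {f : (Fin m → Bool) → Bool} (hf : Monotone f) : Monotone (SF f) := by
  intro A B h hA
  have := hf (pt_le_pt.2 h)
  unfold SF at *
  rw [hA] at this
  cases hB : f (pt B)
  · rw [hB] at this; exact absurd this (by decide)
  · rfl

lemma minimalOne_iff {f : (Fin m → Bool) → Bool} (hf : Monotone f) (A : Finset (Fin m)) :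
    MinimalOne f (pt A) ↔ A ∈ minterms (SF f) := by
  rw [mem_minterms]
  constructor
  · rintro ⟨h1, h2⟩
    refine ⟨h1, fun x hx h => ?_⟩
    have := h2 (pt (A.erase x)) (pt_lt_pt.2 (Finset.erase_ssubset hx))
    unfold SF at h
    rw [this] at h
    exact absurd h (by decide)
  · rintro ⟨h1, h2⟩
    refine ⟨h1, fun y hy => ?_⟩
    rw [← pt_st y] at hy ⊢
    have hs := pt_lt_pt.1 hy
    obtain ⟨x, hx, hx'⟩ := Finset.exists_of_ssubset hs
    have hns : ¬ SF f (st y) := fun h => h2 x hx (SF_mono hf (fun z hz => mem_erase.2
      ⟨fun h => hx' (h ▸ hz), hs.1 hz⟩) h)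
    exact Bool.eq_false_iff.2 hns

lemma maximalZero_iff {f : (Fin m → Bool) → Bool} (hf : Monotone f) (A : Finset (Fin m)) :
    MaximalZero f (pt A) ↔ Aᶜ ∈ maxterms (SF f) := by
  rw [mem_maxterms, compl_compl]
  constructor
  · rintro ⟨h1, h2⟩
    refine ⟨fun h => ?_, fun x hx => ?_⟩
    · unfold SF at h; rw [h] at h1; exact absurd h1 (by decide)
    · exact h2 (pt (insert x A)) (pt_lt_pt.2 (Finset.ssubset_insert (mem_compl.1 hx)))
  · rintro ⟨h1, h2⟩
    refine ⟨Bool.eq_false_iff.2 h1, fun y hy => ?_⟩
    rw [← pt_st y] at hy ⊢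
    have hs := pt_lt_pt.1 hy
    obtain ⟨x, hx, hx'⟩ := Finset.exists_of_ssubset hs
    exact SF_mono hf (Finset.insert_subset hx hs.1) (h2 x (mem_compl.2 hx'))

lemma relevant_iff {f : (Fin m → Bool) → Bool} (hf : Monotone f) (i : Fin m) :
    Relevant f i ↔ i ∈ rel (SF f) := by
  rw [mem_rel]
  constructor
  · rintro ⟨x, y, hxy, hne⟩
    -- wlog f x = true, f y = false
    have key : ∀ x y : Fin m → Bool, (∀ j, j ≠ i → x j = y j) → f x = true → f y = false →
        ∃ A, SF f (insert i A) ∧ ¬ SF f A := by
      intro x y hxy hx hy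
      refine ⟨st y, ?_, ?_⟩
      · refine SF_mono hf ?_ (show SF f (st x) by unfold SF; rw [pt_st]; exact hx)
        intro j hj
        by_cases hji : j = i
        · rw [hji]; exact mem_insert_self _ _
        · refine mem_insert_of_mem ?_
          have : x j = true := by simpa [st] using hj
          rw [hxy j hji] at this
          simpa [st] using this
      · unfold SF; rw [pt_st, hy]; decide
    cases hx : f x <;> cases hy : f y
    · rw [hx, hy] at hne; exact absurd rfl hne
    · exact key y x (fun j hj => (hxy j hj).symm) hy hx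
    · exact key x y hxy hx hy
    · rw [hx, hy] at hne; exact absurd rfl hne
  · rintro ⟨A, h1, h2⟩
    refine ⟨pt (insert i A), pt A, ?_, ?_⟩
    · intro j hj
      by_cases hjA : j ∈ A
      · simp [pt, hjA]
      · simp [pt, hjA, hj]
    · intro h
      unfold SF at h1 h2
      rw [h] at h1
      exact h2 h1

lemma card_rel_eq {f : (Fin m → Bool) → Bool} (hf : Monotone f) :
    {i | Relevant f i}.ncard = (rel (SF f)).card := by
  have : {i | Relevant f i} = (rel (SF f) : Set (Fin m)) := by
    ext i; exact relevant_iff hf i
  rw [this, Set.ncard_coe_finset]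

lemma ncard_extremal {f : (Fin m → Bool) → Bool} (hf : Monotone f) :
    (extremalPoints f).ncard = (minterms (SF f)).card + (maxterms (SF f)).card := by
  have hset : extremalPoints f =
      ((minterms (SF f)).image pt ∪ (maxterms (SF f)).image (fun T => pt Tᶜ) :
        Finset (Fin m → Bool)) := by
    ext x
    rw [Finset.mem_coe, Finset.mem_union, Finset.mem_image, Finset.mem_image]
    unfold extremalPoints
    constructor
    · rintro (h | h)
      · left
        refine ⟨st x, ?_, pt_st x⟩
        rw [← minimalOne_iff hf, pt_st]; exact h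
      · right
        refine ⟨(st x)ᶜ, ?_, by rw [compl_compl, pt_st]⟩
        rw [← maximalZero_iff hf, pt_st]; exact h
    · rintro (⟨A, hA, rfl⟩ | ⟨A, hA, rfl⟩)
      · left; exact (minimalOne_iff hf A).2 hA
      · right
        rw [maximalZero_iff hf, compl_compl]; exact hA
  rw [hset, Set.ncard_coe_finset, Finset.card_union_of_disjoint]
  · rw [Finset.card_image_of_injective _ pt_injective, Finset.card_image_of_injective]
    intro A B h
    exact compl_injective (pt_injective h)
  · rw [Finset.disjoint_left]
    intro x h1 h2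
    obtain ⟨A, hA, rfl⟩ := Finset.mem_image.1 h1
    obtain ⟨B, hB, hBA⟩ := Finset.mem_image.1 h2
    have e1 : f (pt A) = true := (mem_minterms.1 hA).1
    have e2 : ¬ f (pt Bᶜ) = true := (mem_maxterms.1 hB).1
    rw [hBA] at e2
    exact e2 e1

lemma nested_pt (L : List (Fin m × Bool)) (l : Fin m) (A : Finset (Fin m)) :
    nested L l (pt A) = true ↔ evalP L l A := by
  induction L with
  | nil => simp [nested, evalP, pt]
  | cons p L ih =>
    obtain ⟨v, b⟩ := p
    cases b
    · simp [nested, evalP, pt, ← ih]
    · simp [nested, evalP, pt, ← ih]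

theorem lower_bound_bool (f : (Fin m → Bool) → Bool) (hf : Monotone f) :
    {i | Relevant f i}.ncard + 1 ≤ (extremalPoints f).ncard := by
  rw [ncard_extremal hf, card_rel_eq hf]
  exact lower_bound (SF_mono hf)

theorem characterization (f : (Fin m → Bool) → Bool) (hf : Monotone f) :
    (extremalPoints f).ncard = {i | Relevant f i}.ncard + 1 ↔ LinearReadOnce f := by
  rw [ncard_extremal hf, card_rel_eq hf]
  constructor
  · intro h
    by_cases hr : (rel (SF f)).Nonempty
    · obtain ⟨L, l, h1, h2, h3⟩ := nested_of_excess _ (SF f) (SF_mono hf) rfl h hr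
      right
      refine ⟨L, l, h1, ?_, ?_⟩
      · intro i
        rw [h2, relevant_iff hf]
      · intro x
        have := (h3 (st x)).trans (nested_pt L l (st x)).symm
        unfold SF at this
        rw [pt_st] at this
        cases hx : f x <;> cases hy : nested L l x
        · rfl
        · rw [hx, hy] at this; exact absurd (this.2 rfl) (by decide)
        · rw [hx, hy] at this; exact absurd (this.1 rfl) (by decide)
        · rfl
    · left
      rw [Finset.not_nonempty_iff_eq_empty] at hr
      intro x y
      have h1 := of_rel_empty (SF_mono hf) hr (st x) (st y)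
      have h2 := of_rel_empty (SF_mono hf) hr (st y) (st x)
      unfold SF at h1 h2
      rw [pt_st, pt_st] at h1 h2
      cases hx : f x <;> cases hy : f y
      · rfl
      · rw [hx, hy] at h2; exact absurd (h2 rfl) (by decide)
      · rw [hx, hy] at h1; exact absurd (h1 rfl) (by decide)
      · rfl
  · rintro (h | ⟨L, l, h1, h2, h3⟩)
    · have hr : rel (SF f) = ∅ := by
        rw [Finset.eq_empty_iff_forall_notMem]
        intro x hx
        obtain ⟨A, hA, hA'⟩ := mem_rel.1 hx
        unfold SF at hA hA'
        rw [h _ (pt A)] at hA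
        exact hA' hA
      rw [hr, excess_of_rel_empty (SF_mono hf) hr]; rfl
    · have hSF : SF f = evalP L l := by
        funext A
        apply propext
        unfold SF
        rw [h3, nested_pt]
      rw [hSF]
      exact (excess_of_nested L l h1).2.2.1

end

end Pool.Agent.Lib.MP_61c8b8_co
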