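import Mathlib

/-!
Extremal sets of positive Boolean functions, written for set functions `F : Finset V → Prop`.
`minterms F` are the inclusion-minimal sets with `F`, `maxterms F` the complements of the
inclusion-maximal sets without `F`, `rel F` the set of relevant variables.
-/

set_option autoImplicit false

open Finset

namespace Pool.Agent.Lib.MP_61c8b8_co

open Classical

variable {V : Type*} [Fintype V] [DecidableEq V]

/-- minimal sets on which `F` holds -/
noncomputable def minterms (F : Finset V → Prop) : Finset (Finset V) :=
  univ.filter fun E => F E ∧ ∀ x ∈ E, ¬ F (E.erase x)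

/-- complements of the maximal sets on which `F` fails -/
noncomputable def maxterms (F : Finset V → Prop) : Finset (Finset V) :=
  univ.filter fun T => ¬ F Tᶜ ∧ ∀ x ∈ T, F (insert x Tᶜ)

/-- relevant variables -/
noncomputable def rel (F : Finset V → Prop) : Finset V :=
  univ.filter fun x => ∃ A, F (insert x A) ∧ ¬ F A

lemma mem_minterms {F : Finset V → Prop} {E : Finset V} :
    E ∈ minterms F ↔ F E ∧ ∀ x ∈ E, ¬ F (E.erase x) := by simp [minterms]

lemma mem_maxterms {F : Finset V → Prop} {T : Finset V} :
    T ∈ maxterms F ↔ ¬ F Tᶜ ∧ ∀ x ∈ T, F (insert x Tᶜ) := by simp [maxterms]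

lemma mem_rel {F : Finset V → Prop} {x : V} :
    x ∈ rel F ↔ ∃ A, F (insert x A) ∧ ¬ F A := by simp [rel]

/-- dual function -/
def dual (F : Finset V → Prop) : Finset V → Prop := fun A => ¬ F Aᶜ

lemma dual_dual (F : Finset V → Prop) : dual (dual F) = F := by
  funext A; simp [dual]

lemma dual_mono {F : Finset V → Prop} (hF : Monotone F) : Monotone (dual F) := by
  intro A B hAB h h2
  exact h (hF (compl_le_compl hAB) h2)

lemma minterms_dual (F : Finset V → Prop) : minterms (dual F) = maxterms F := by
  ext T
  simp only [mem_minterms, mem_maxterms, dual, not_not, Finset.compl_erase]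

lemma maxterms_dual (F : Finset V → Prop) : maxterms (dual F) = minterms F := by
  rw [← minterms_dual, dual_dual]

lemma rel_dual {F : Finset V → Prop} : rel (dual F) = rel F := by
  have key : ∀ G : Finset V → Prop, rel G ⊆ rel (dual G) := by
    intro G x hx
    obtain ⟨A, h1, h2⟩ := mem_rel.1 hx
    refine mem_rel.2 ⟨(insert x A)ᶜ, ?_, ?_⟩
    · have hxA : x ∉ A := by
        intro h; rw [Finset.insert_eq_of_mem h] at h1; exact h2 h1
      have : (insert x (insert x A)ᶜ)ᶜ = A := by
        ext y
        by_cases hy : y = x
        · subst hy; simp [hxA]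
        · simp [hy]
      show ¬ G (insert x (insert x A)ᶜ)ᶜ
      rw [this]; exact h2
    · simpa [dual] using h1
  apply le_antisymm
  · have := key (dual F); rwa [dual_dual] at this
  · exact key F

lemma exists_minterm {F : Finset V → Prop} {A : Finset V} (h : F A) :
    ∃ E ∈ minterms F, E ⊆ A := by
  induction A using Finset.strongInduction with
  | H A ih =>
    by_cases hA : ∃ x ∈ A, F (A.erase x)
    · obtain ⟨x, hx, hFx⟩ := hA
      obtain ⟨E, hE, hEA⟩ := ih _ (Finset.erase_ssubset hx) hFx
      exact ⟨E, hE, hEA.trans (Finset.erase_subset _ _)⟩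
    · push Not at hA
      exact ⟨A, mem_minterms.2 ⟨h, hA⟩, le_rfl⟩

lemma exists_maxterm {F : Finset V → Prop} {A : Finset V} (h : ¬ F A) :
    ∃ T ∈ maxterms F, Disjoint T A := by
  have : dual F Aᶜ := by simpa [dual] using h
  obtain ⟨T, hT, hTA⟩ := exists_minterm this
  rw [minterms_dual] at hT
  exact ⟨T, hT, disjoint_of_subset_left hTA disjoint_compl_left⟩

lemma inter_nonempty {F : Finset V → Prop} (hF : Monotone F) {E T : Finset V}
    (hE : F E) (hT : ¬ F Tᶜ) : ∃ x, x ∈ E ∧ x ∈ T := by
  by_contra hcon
  push Not at hcon
  exact hT (hF (fun x hx => mem_compl.2 (hcon x hx)) hE)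

lemma iff_exists_minterm {F : Finset V → Prop} (hF : Monotone F) {A : Finset V} :
    F A ↔ ∃ E ∈ minterms F, E ⊆ A :=
  ⟨exists_minterm, fun ⟨_, hE, hEA⟩ => hF hEA (mem_minterms.1 hE).1⟩

lemma iff_forall_maxterm {F : Finset V → Prop} (hF : Monotone F) {A : Finset V} :
    F A ↔ ∀ T ∈ maxterms F, ∃ x ∈ A, x ∈ T := by
  constructor
  · intro h T hT
    exact inter_nonempty hF h (mem_maxterms.1 hT).1
  · intro h
    by_contra hA
    obtain ⟨T, hT, hTA⟩ := exists_maxterm hA
    obtain ⟨x, hxA, hxT⟩ := h T hT
    exact (Finset.disjoint_left.1 hTA hxT) hxA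

lemma mem_rel_iff_minterm {F : Finset V → Prop} (hF : Monotone F) {x : V} :
    x ∈ rel F ↔ ∃ E ∈ minterms F, x ∈ E := by
  constructor
  · intro hx
    obtain ⟨A, h1, h2⟩ := mem_rel.1 hx
    obtain ⟨E, hE, hEA⟩ := exists_minterm h1
    refine ⟨E, hE, ?_⟩
    by_contra hxE
    exact h2 (hF (fun y hy => by
      rcases Finset.mem_insert.1 (hEA hy) with h | h
      · exact absurd (h ▸ hy) hxE
      · exact h) (mem_minterms.1 hE).1)
  · rintro ⟨E, hE, hxE⟩
    refine mem_rel.2 ⟨E.erase x, ?_, (mem_minterms.1 hE).2 x hxE⟩
    rw [Finset.insert_erase hxE]; exact (mem_minterms.1 hE).1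

lemma mem_rel_iff_maxterm {F : Finset V → Prop} (hF : Monotone F) {x : V} :
    x ∈ rel F ↔ ∃ T ∈ maxterms F, x ∈ T := by
  rw [← rel_dual, mem_rel_iff_minterm (dual_mono hF), minterms_dual]

/-- minterms form an antichain -/
lemma minterm_antichain {F : Finset V → Prop} (hF : Monotone F) {E E' : Finset V}
    (hE : E ∈ minterms F) (h' : F E') (hs : E' ⊆ E) : E' = E := by
  by_contra hne
  obtain ⟨x, hx, hx'⟩ := Finset.exists_of_ssubset (lt_of_le_of_ne hs hne)
  exact (mem_minterms.1 hE).2 x hx (hF (fun y hy => Finset.mem_erase.2
    ⟨fun h => hx' (h ▸ hy), hs hy⟩) h')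

lemma maxterm_antichain {F : Finset V → Prop} (hF : Monotone F) {T T' : Finset V}
    (hT : T ∈ maxterms F) (h' : T' ∈ maxterms F) (hs : T' ⊆ T) : T' = T := by
  rw [← minterms_dual] at hT h'
  exact minterm_antichain (dual_mono hF) hT (mem_minterms.1 h').1 hs

/-- The kernel argument: the key lower bound `ext F ≥ n + 1`. -/
theorem lower_bound {F : Finset V → Prop} (hF : Monotone F) :
    (rel F).card + 1 ≤ (minterms F).card + (maxterms F).card := by
  let R := {x // x ∈ rel F}
  let φ : (Option R → ℚ) →ₗ[ℚ] ({E // E ∈ minterms F} ⊕ {T // T ∈ maxterms F} → ℚ) :=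
    { toFun := fun w => Sum.elim
        (fun E => w none + ∑ x : R, if x.1 ∈ E.1 then w (some x) else 0)
        (fun T => w none - ∑ x : R, if x.1 ∈ T.1 then w (some x) else 0)
      map_add' := by
        intro w w'
        funext i
        cases i with
        | inl E =>
          simp only [Sum.elim_inl, Pi.add_apply]
          have : ∀ x : R, (if x.1 ∈ E.1 then w (some x) + w' (some x) else 0) =
            (if x.1 ∈ E.1 then w (some x) else 0) + (if x.1 ∈ E.1 then w' (some x) else 0) := by
            intro x; split_ifs <;> simp
          simp only [this, Finset.sum_add_distrib]; ring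
        | inr T =>
          simp only [Sum.elim_inr, Pi.add_apply]
          have : ∀ x : R, (if x.1 ∈ T.1 then w (some x) + w' (some x) else 0) =
            (if x.1 ∈ T.1 then w (some x) else 0) + (if x.1 ∈ T.1 then w' (some x) else 0) := by
            intro x; split_ifs <;> simp
          simp only [this, Finset.sum_add_distrib]; ring
      map_smul' := by
        intro c w
        funext i
        cases i with
        | inl E =>
          simp only [Sum.elim_inl, Pi.smul_apply, smul_eq_mul, RingHom.id_apply]
          have : ∀ x : R, (if x.1 ∈ E.1 then c * w (some x) else 0) =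
            c * (if x.1 ∈ E.1 then w (some x) else 0) := by
            intro x; split_ifs <;> simp
          simp only [this, ← Finset.mul_sum]; ring
        | inr T =>
          simp only [Sum.elim_inr, Pi.smul_apply, smul_eq_mul, RingHom.id_apply]
          have : ∀ x : R, (if x.1 ∈ T.1 then c * w (some x) else 0) =
            c * (if x.1 ∈ T.1 then w (some x) else 0) := by
            intro x; split_ifs <;> simp
          simp only [this, ← Finset.mul_sum]; ring }
  -- the kernel is trivial
  have main : ∀ w : Option R → ℚ, 0 ≤ w none → φ w = 0 → w = 0 := by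
    intro w hw0 hw
    have hE : ∀ E ∈ minterms F, w none + ∑ x : R, (if x.1 ∈ E then w (some x) else 0) = 0 :=
      fun E hE => congrFun hw (Sum.inl ⟨E, hE⟩)
    have hT : ∀ T ∈ maxterms F, w none - ∑ x : R, (if x.1 ∈ T then w (some x) else 0) = 0 :=
      fun T hT => congrFun hw (Sum.inr ⟨T, hT⟩)
    -- weights on V
    let v : V → ℚ := fun x => if h : x ∈ rel F then w (some ⟨x, h⟩) else 0
    have hv : ∀ x : R, v x.1 = w (some x) := by
      intro x; simp only [v, dif_pos x.2]; rfl
    have hcase : ∀ U : Finset V, (∀ x ∈ U, v x = 0) →
        F U ∨ ¬ F (univ.filter (fun x => v x ≠ 0) ∪ U) := by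
      intro U hU
      by_cases hP : F (univ.filter (fun x => 0 < v x) ∪ U)
      · left
        obtain ⟨E, hEm, hEs⟩ := exists_minterm hP
        have h1 := hE E hEm
        have hnn : ∀ x : R, x ∈ (univ : Finset R) →
            0 ≤ (if x.1 ∈ E then w (some x) else 0) := by
          intro x _
          split_ifs with hx
          · rw [← hv]
            rcases Finset.mem_union.1 (hEs hx) with h | h
            · exact le_of_lt (Finset.mem_filter.1 h).2
            · exact le_of_eq (hU _ h).symm
          · exact le_rfl
        have hsum := Finset.sum_nonneg hnn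
        have hz : ∑ x : R, (if x.1 ∈ E then w (some x) else 0) = 0 := by linarith
        have hz' := (Finset.sum_eq_zero_iff_of_nonneg hnn).1 hz
        refine hF (fun y hy => ?_) (mem_minterms.1 hEm).1
        rcases Finset.mem_union.1 (hEs hy) with h | h
        · exfalso
          have hpos := (Finset.mem_filter.1 h).2
          by_cases hyr : y ∈ rel F
          · have := hz' ⟨y, hyr⟩ (mem_univ _)
            simp only [hy, if_true] at this
            rw [← hv] at this
            exact absurd this (ne_of_gt hpos)
          · simp only [v, dif_neg hyr, lt_irrefl] at hpos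
        · exact h
      · right
        obtain ⟨T, hTm, hTs⟩ := exists_maxterm hP
        have h1 := hT T hTm
        have hnp : ∀ x : R, x ∈ (univ : Finset R) →
            (if x.1 ∈ T then w (some x) else 0) ≤ 0 := by
          intro x _
          split_ifs with hx
          · rw [← hv]
            by_contra hpos
            push Not at hpos
            exact Finset.disjoint_left.1 hTs hx (Finset.mem_union_left _
              (Finset.mem_filter.2 ⟨mem_univ _, hpos⟩))
          · exact le_rfl
        have hsum := Finset.sum_nonpos hnp
        have hz : ∑ x : R, (if x.1 ∈ T then w (some x) else 0) = 0 := by linarith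
        have hz' := (Finset.sum_eq_zero_iff_of_nonpos hnp).1 hz
        intro hcon
        obtain ⟨y, hy1, hy2⟩ := inter_nonempty hF hcon (mem_maxterms.1 hTm).1
        rcases Finset.mem_union.1 hy1 with h | h
        · have hne := (Finset.mem_filter.1 h).2
          by_cases hyr : y ∈ rel F
          · have := hz' ⟨y, hyr⟩ (mem_univ _)
            simp only [hy2, if_true] at this
            rw [← hv] at this
            exact hne this
          · simp only [v, dif_neg hyr, ne_eq, not_true_eq_false] at hne
        · exact Finset.disjoint_left.1 hTs hy2 (Finset.mem_union_right _ h)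
    have hv0 : ∀ x ∈ rel F, v x = 0 := by
      intro x hx
      by_contra hne
      obtain ⟨A, h1, h2⟩ := mem_rel.1 hx
      rcases hcase (A.filter (fun y => v y = 0)) (fun y hy => (Finset.mem_filter.1 hy).2) with h | h
      · exact h2 (hF (Finset.filter_subset _ _) h)
      · apply h
        refine hF (fun y hy => ?_) h1
        by_cases hvy : v y = 0
        · rcases Finset.mem_insert.1 hy with h | h
          · exact absurd (h ▸ hvy) hne
          · exact Finset.mem_union_right _ (Finset.mem_filter.2 ⟨h, hvy⟩)
        · exact Finset.mem_union_left _ (Finset.mem_filter.2 ⟨mem_univ _, hvy⟩)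
    have hws : ∀ x : R, w (some x) = 0 := fun x => by rw [← hv]; exact hv0 x.1 x.2
    funext i
    cases i with
    | some x => exact hws x
    | none =>
      -- there is at least one extremal set
      by_cases hcon : F ∅
      · obtain ⟨E, hEm, _⟩ := exists_minterm hcon
        have := hE E hEm
        simpa [hws] using this
      · obtain ⟨T, hTm, _⟩ := exists_maxterm hcon
        have := hT T hTm
        simpa [hws] using this
  have hinj : Function.Injective φ := by
    rw [injective_iff_map_eq_zero]
    intro w hw
    rcases le_total 0 (w none) with h | h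
    · exact main w h hw
    · have := main (-w) (by simpa using h) (by rw [map_neg, hw, neg_zero])
      simpa using this
  have hrank := LinearMap.finrank_le_finrank_of_injective hinj
  simpa [R, Fintype.card_option, Module.finrank_pi] using hrank

end Pool.Agent.Lib.MP_61c8b8_co
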