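import Pool.Agent.Lib.MP_61c8b8_co.Single

set_option autoImplicit false

open Finset

namespace Pool.Agent.Lib.MP_61c8b8_co

open Classical

variable {V : Type*} [Fintype V] [DecidableEq V]

lemma card_minterms_up_of_singleton {F : Finset V → Prop} (hF : Monotone F) {v : V}
    (hv : {v} ∈ maxterms F) : (minterms (up F v)).card = (minterms F).card := by
  apply le_antisymm (card_minterms_up_le hF v)
  have hmem : ∀ E ∈ minterms F, v ∈ E := by
    intro E hE
    obtain ⟨z, hz1, hz2⟩ := inter_nonempty hF (mem_minterms.1 hE).1 (mem_maxterms.1 hv).1
    rw [mem_singleton] at hz2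
    exact hz2 ▸ hz1
  apply Finset.card_le_card_of_injOn (fun E => E.erase v)
  · intro E hE
    have hvE := hmem E hE
    have hE' := mem_minterms.1 hE
    refine mem_minterms.2 ⟨?_, ?_⟩
    · simp only [up, Finset.insert_erase hvE]; exact hE'.1
    · intro y hy
      obtain ⟨hyv, hyE⟩ := mem_erase.1 hy
      have : insert v ((E.erase v).erase y) = E.erase y := by
        rw [Finset.erase_right_comm, Finset.insert_erase (mem_erase.2 ⟨hyv.symm, hvE⟩)]
      simp only [up, this]
      exact hE'.2 y hyE
  · intro E hE E' hE' h
    have h1 := Finset.insert_erase (hmem E hE)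
    have h2 := Finset.insert_erase (hmem E' hE')
    rw [← h1, ← h2]
    simp only at h
    rw [h]

lemma dT_of_singleton {F : Finset V → Prop} (hF : Monotone F) {v : V}
    (hv : {v} ∈ maxterms F) : dT F v = 1 := by
  unfold dT
  rw [Finset.card_eq_one]
  refine ⟨{v}, ?_⟩
  ext T
  rw [mem_filter, mem_singleton]
  constructor
  · rintro ⟨hT, hvT⟩
    exact (maxterm_antichain hF hT hv (Finset.singleton_subset_iff.2 hvT)).symm
  · rintro rfl
    exact ⟨hv, mem_singleton_self _⟩

lemma cl_of_singleton {F : Finset V → Prop} (hF : Monotone F) {v : V}
    (hv : {v} ∈ maxterms F) : cl F v = {v} := by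
  ext y
  unfold cl
  rw [mem_filter, mem_singleton]
  constructor
  · rintro ⟨hy, h⟩
    obtain ⟨T, hT, hyT⟩ := (mem_rel_iff_maxterm hF).1 hy
    have := maxterm_antichain hF hT hv (Finset.singleton_subset_iff.2 (h T hT hyT))
    rw [← this, mem_singleton] at hyT
    exact hyT
  · rintro rfl
    exact ⟨(mem_rel_iff_maxterm hF).2 ⟨{y}, hv, mem_singleton_self _⟩, fun _ _ h => h⟩

/-- counts for a function `v ∧ G` -/
lemma counts_up {F : Finset V → Prop} (hF : Monotone F) {v : V} (hv : {v} ∈ maxterms F) :
    (minterms (up F v)).card = (minterms F).card ∧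
    (maxterms (up F v)).card + 1 = (maxterms F).card ∧
    rel (up F v) = (rel F).erase v ∧ v ∈ rel F := by
  have hvr : v ∈ rel F := (mem_rel_iff_maxterm hF).2 ⟨{v}, hv, mem_singleton_self _⟩
  refine ⟨card_minterms_up_of_singleton hF hv, ?_, ?_, hvr⟩
  · have := card_maxterms_up (F := F) v
    rw [dT_of_singleton hF hv] at this
    exact this
  · ext y
    rw [mem_rel_up hF, cl_of_singleton hF hv, mem_singleton, mem_erase]
    exact and_comm

/-- counts for a function `v ∨ G` -/
lemma counts_down {F : Finset V → Prop} (hF : Monotone F) {v : V} (hv : {v} ∈ minterms F) :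
    (maxterms (down F v)).card = (maxterms F).card ∧
    (minterms (down F v)).card + 1 = (minterms F).card ∧
    rel (down F v) = (rel F).erase v ∧ v ∈ rel F := by
  have hv' : {v} ∈ maxterms (dual F) := by rwa [maxterms_dual]
  obtain ⟨h1, h2, h3, h4⟩ := counts_up (dual_mono hF) hv'
  rw [← dual_down, minterms_dual, minterms_dual] at h1
  rw [← dual_down, maxterms_dual, maxterms_dual] at h2
  rw [← dual_down, rel_dual, rel_dual] at h3
  rw [rel_dual] at h4
  exact ⟨h1, h2, h3, h4⟩

/-- value of the nested expression with the list of (variable, operation) pairs and the last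
variable; `true` stands for conjunction -/
def evalP : List (V × Bool) → V → Finset V → Prop
  | [], l, A => l ∈ A
  | (i, true) :: L, l, A => i ∈ A ∧ evalP L l A
  | (i, false) :: L, l, A => i ∈ A ∨ evalP L l A

lemma iff_of_notMem_rel {G : Finset V → Prop} (hG : Monotone G) {v : V} (hv : v ∉ rel G)
    (A : Finset V) : G (insert v A) ↔ G A := by
  constructor
  · intro h
    by_contra hA
    exact hv (mem_rel.2 ⟨A, h, hA⟩)
  · exact fun h => hG (Finset.subset_insert _ _) h

lemma of_rel_empty {G : Finset V → Prop} (hG : Monotone G) (hr : rel G = ∅) (A B : Finset V) :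
    G A → G B := by
  intro h
  by_contra hB
  obtain ⟨T, hT, _⟩ := exists_maxterm hB
  obtain ⟨z, _, hz⟩ := inter_nonempty hG h (mem_maxterms.1 hT).1
  have : z ∈ rel G := (mem_rel_iff_maxterm hG).2 ⟨T, hT, hz⟩
  rw [hr] at this
  exact absurd this (Finset.notMem_empty _)

/-- zero excess implies linear read-once -/
theorem nested_of_excess : ∀ (n : ℕ) (F : Finset V → Prop), Monotone F → (rel F).card = n →
    (minterms F).card + (maxterms F).card = (rel F).card + 1 → (rel F).Nonempty →
    ∃ (L : List (V × Bool)) (l : V), (L.map Prod.fst ++ [l]).Nodup ∧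
      (∀ i, i ∈ L.map Prod.fst ++ [l] ↔ i ∈ rel F) ∧ ∀ A, F A ↔ evalP L l A := by
  intro n
  induction n with
  | zero =>
    intro F hF hn _ hne
    exact absurd (Finset.card_eq_zero.1 hn) (Finset.nonempty_iff_ne_empty.1 hne)
  | succ n ih =>
  intro F hF hn hex hne
  obtain ⟨v, hv⟩ := exists_singleton _ F hF rfl hex hne
  rcases hv with hv | hv
  · -- {v} is a minterm, F = v ∨ G
    obtain ⟨h1, h2, h3, h4⟩ := counts_down hF hv
    have hFd : ∀ A, F A ↔ v ∈ A ∨ down F v A := by
      intro A
      constructor
      · intro h
        by_cases hvA : v ∈ A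
        · exact Or.inl hvA
        · right; simp only [down, Finset.erase_eq_of_notMem hvA]; exact h
      · rintro (h | h)
        · exact hF (Finset.singleton_subset_iff.2 h) (mem_minterms.1 hv).1
        · exact hF (Finset.erase_subset _ _) h
    have hc := Finset.card_erase_add_one h4
    by_cases hr : (rel (down F v)).Nonempty
    · obtain ⟨L, l, hL1, hL2, hL3⟩ := ih (down F v) (down_mono hF v) (by rw [h3]; omega)
        (by rw [h3]; omega) hr
      refine ⟨(v, false) :: L, l, ?_, ?_, ?_⟩
      · rw [List.map_cons, List.cons_append, List.nodup_cons]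
        refine ⟨?_, hL1⟩
        rw [hL2, h3]; exact Finset.notMem_erase _ _
      · intro i
        rw [List.map_cons, List.cons_append, List.mem_cons, hL2, h3, mem_erase]
        constructor
        · rintro (h | h)
          · exact h ▸ h4
          · exact h.2
        · intro h
          by_cases hi : i = v
          · exact Or.inl hi
          · exact Or.inr ⟨hi, h⟩
      · intro A
        rw [hFd A, hL3 A]; rfl
    · rw [Finset.not_nonempty_iff_eq_empty] at hr
      have hrel : rel F = {v} := by
        rw [← Finset.insert_erase h4, ← h3, hr]; rfl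
      refine ⟨[], v, by simp, ?_, ?_⟩
      · intro i; simp [hrel]
      · intro A
        rw [hFd A]
        constructor
        · rintro (h | h)
          · exact h
          · exfalso
            have := of_rel_empty (down_mono hF v) hr A {v} h
            have h5 := (mem_minterms.1 hv).2 v (mem_singleton_self _)
            exact h5 this
        · exact fun h => Or.inl h
  · obtain ⟨h1, h2, h3, h4⟩ := counts_up hF hv
    have hFv : ∀ A, F A → v ∈ A := by
      intro A hA
      obtain ⟨z, hz1, hz2⟩ := inter_nonempty hF hA (mem_maxterms.1 hv).1
      rw [mem_singleton] at hz2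
      exact hz2 ▸ hz1
    have hFd : ∀ A, F A ↔ v ∈ A ∧ up F v A := by
      intro A
      constructor
      · intro h
        exact ⟨hFv A h, hF (Finset.subset_insert _ _) h⟩
      · rintro ⟨h, h'⟩
        simp only [up, Finset.insert_eq_of_mem h] at h'
        exact h'
    have hc := Finset.card_erase_add_one h4
    by_cases hr : (rel (up F v)).Nonempty
    · obtain ⟨L, l, hL1, hL2, hL3⟩ := ih (up F v) (up_mono hF v) (by rw [h3]; omega)
        (by rw [h3]; omega) hr
      refine ⟨(v, true) :: L, l, ?_, ?_, ?_⟩
      · rw [List.map_cons, List.cons_append, List.nodup_cons]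
        refine ⟨?_, hL1⟩
        rw [hL2, h3]; exact Finset.notMem_erase _ _
      · intro i
        rw [List.map_cons, List.cons_append, List.mem_cons, hL2, h3, mem_erase]
        constructor
        · rintro (h | h)
          · exact h ▸ h4
          · exact h.2
        · intro h
          by_cases hi : i = v
          · exact Or.inl hi
          · exact Or.inr ⟨hi, h⟩
      · intro A
        rw [hFd A, hL3 A]; rfl
    · rw [Finset.not_nonempty_iff_eq_empty] at hr
      have hrel : rel F = {v} := by
        rw [← Finset.insert_erase h4, ← h3, hr]; rfl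
      refine ⟨[], v, by simp, ?_, ?_⟩
      · intro i; simp [hrel]
      · intro A
        rw [hFd A]
        constructor
        · exact fun h => h.1
        · intro h
          refine ⟨h, ?_⟩
          have h5 := (mem_maxterms.1 hv).2 v (mem_singleton_self _)
          exact of_rel_empty (up_mono hF v) hr _ A
            (show up F v (({v} : Finset V)ᶜ) from h5)

/-- linear read-once implies zero excess -/
theorem excess_of_nested : ∀ (L : List (V × Bool)) (l : V), (L.map Prod.fst ++ [l]).Nodup →
    Monotone (evalP L l) ∧ (∀ i, i ∈ L.map Prod.fst ++ [l] ↔ i ∈ rel (evalP L l)) ∧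
    (minterms (evalP L l)).card + (maxterms (evalP L l)).card = (rel (evalP L l)).card + 1 ∧
    evalP L l univ ∧ ¬ evalP L l ∅ := by
  intro L
  induction L with
  | nil =>
    intro l _
    have hmono : Monotone (evalP ([] : List (V × Bool)) l) := fun A B h hA => h hA
    have hm : minterms (evalP ([] : List (V × Bool)) l) = {{l}} := by
      ext E
      rw [mem_minterms, mem_singleton]
      constructor
      · rintro ⟨h1, h2⟩
        ext y
        rw [mem_singleton]
        constructor
        · intro hy
          by_contra hyl
          exact h2 y hy (mem_erase.2 ⟨fun h => hyl h.symm, h1⟩)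
        · rintro rfl; exact h1
      · rintro rfl
        refine ⟨mem_singleton_self _, fun x hx h => ?_⟩
        rw [mem_singleton] at hx
        subst hx
        exact (mem_erase.1 h).1 rfl
    have hdual : dual (evalP ([] : List (V × Bool)) l) = evalP [] l := by
      funext A
      simp only [dual, evalP, mem_compl, not_not]
    have hM : maxterms (evalP ([] : List (V × Bool)) l) = {{l}} := by
      rw [← minterms_dual, hdual, hm]
    have hr : rel (evalP ([] : List (V × Bool)) l) = {l} := by
      ext x
      rw [mem_rel_iff_minterm hmono, hm]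
      simp
    refine ⟨hmono, ?_, ?_, mem_univ _, Finset.notMem_empty _⟩
    · intro i; rw [hr]; simp
    · rw [hm, hM, hr]; rfl
  | cons p L ih =>
    intro l hnd
    obtain ⟨v, b⟩ := p
    rw [List.map_cons, List.cons_append, List.nodup_cons] at hnd
    obtain ⟨hvL, hnd⟩ := hnd
    obtain ⟨hG, hGr, hGe, hGu, hG0⟩ := ih l hnd
    have hvr : v ∉ rel (evalP L l) := fun h => hvL ((hGr v).2 h)
    have hins := fun A => iff_of_notMem_rel hG hvr A
    cases b with
    | true =>
      have hF : Monotone (evalP ((v, true) :: L) l) := by
        intro A B h hA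
        exact ⟨h hA.1, hG h hA.2⟩
      have hup : up (evalP ((v, true) :: L) l) v = evalP L l := by
        funext A
        apply propext
        show (v ∈ insert v A ∧ evalP L l (insert v A)) ↔ _
        rw [hins A]
        exact ⟨fun h => h.2, fun h => ⟨mem_insert_self _ _, h⟩⟩
      have hv : {v} ∈ maxterms (evalP ((v, true) :: L) l) := by
        refine mem_maxterms.2 ⟨?_, ?_⟩
        · rintro ⟨h, _⟩
          simp at h
        · intro y hy
          rw [mem_singleton] at hy
          subst hy
          have : insert y ({y} : Finset V)ᶜ = univ := by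
            ext z; by_cases hz : z = y <;> simp [hz]
          rw [this]
          exact ⟨mem_univ _, hGu⟩
      obtain ⟨h1, h2, h3, h4⟩ := counts_up hF hv
      rw [hup] at h1 h2 h3
      have hc := Finset.card_erase_add_one h4
      refine ⟨hF, ?_, ?_, ⟨mem_univ _, hGu⟩, fun h => hG0 h.2⟩
      · intro i
        rw [List.map_cons, List.cons_append, List.mem_cons, hGr, h3, mem_erase]
        constructor
        · rintro (h | h)
          · exact h ▸ h4
          · exact h.2
        · intro h
          by_cases hi : i = v
          · exact Or.inl hi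
          · exact Or.inr ⟨hi, h⟩
      · rw [h3] at hGe
        omega
    | false =>
      have hF : Monotone (evalP ((v, false) :: L) l) := by
        intro A B h hA
        rcases hA with hA | hA
        · exact Or.inl (h hA)
        · exact Or.inr (hG h hA)
      have hdn : down (evalP ((v, false) :: L) l) v = evalP L l := by
        funext A
        apply propext
        show (v ∈ A.erase v ∨ evalP L l (A.erase v)) ↔ _
        rw [← hins (A.erase v)]
        constructor
        · rintro (h | h)
          · exact absurd rfl (mem_erase.1 h).1
          · by_cases hvA : v ∈ A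
            · rwa [Finset.insert_erase hvA] at h
            · rw [Finset.erase_eq_of_notMem hvA] at h
              exact (hins A).1 h
        · intro h
          right
          exact hG (fun y hy => by
            by_cases hyv : y = v
            · rw [hyv]; exact mem_insert_self _ _
            · exact mem_insert_of_mem (mem_erase.2 ⟨hyv, hy⟩)) h
      have hv : {v} ∈ minterms (evalP ((v, false) :: L) l) := by
        refine mem_minterms.2 ⟨Or.inl (mem_singleton_self _), ?_⟩
        · intro y hy
          rw [mem_singleton] at hy
          subst hy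
          have : ({y} : Finset V).erase y = ∅ := by simp
          rw [this]
          rintro (h | h)
          · exact absurd h (Finset.notMem_empty _)
          · exact hG0 h
      obtain ⟨h1, h2, h3, h4⟩ := counts_down hF hv
      rw [hdn] at h1 h2 h3
      have hc := Finset.card_erase_add_one h4
      refine ⟨hF, ?_, ?_, Or.inr hGu, ?_⟩
      · intro i
        rw [List.map_cons, List.cons_append, List.mem_cons, hGr, h3, mem_erase]
        constructor
        · rintro (h | h)
          · exact h ▸ h4
          · exact h.2
        · intro h
          by_cases hi : i = v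
          · exact Or.inl hi
          · exact Or.inr ⟨hi, h⟩
      · rw [h3] at hGe
        omega
      · rintro (h | h)
        · exact absurd h (Finset.notMem_empty _)
        · exact hG0 h

/-- constant functions -/
theorem excess_of_rel_empty {F : Finset V → Prop} (hF : Monotone F) (hr : rel F = ∅) :
    (minterms F).card + (maxterms F).card = 1 := by
  have hE : ∀ E ∈ minterms F, E = ∅ := by
    intro E hE
    by_contra hne
    obtain ⟨x, hx⟩ := Finset.nonempty_iff_ne_empty.2 hne
    have : x ∈ rel F := (mem_rel_iff_minterm hF).2 ⟨E, hE, hx⟩
    rw [hr] at this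
    exact absurd this (Finset.notMem_empty _)
  have hT : ∀ E ∈ maxterms F, E = ∅ := by
    intro E hE
    by_contra hne
    obtain ⟨x, hx⟩ := Finset.nonempty_iff_ne_empty.2 hne
    have : x ∈ rel F := (mem_rel_iff_maxterm hF).2 ⟨E, hE, hx⟩
    rw [hr] at this
    exact absurd this (Finset.notMem_empty _)
  by_cases h : F ∅
  · have h1 : minterms F = {∅} := by
      ext E
      rw [mem_singleton]
      refine ⟨hE E, ?_⟩
      rintro rfl
      exact mem_minterms.2 ⟨h, by simp⟩
    have h2 : maxterms F = ∅ := by
      rw [Finset.eq_empty_iff_forall_notMem]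
      intro T hTm
      exact (mem_maxterms.1 hTm).1 (hF (Finset.empty_subset _) h)
    rw [h1, h2]; rfl
  · have h1 : minterms F = ∅ := by
      rw [Finset.eq_empty_iff_forall_notMem]
      intro E hEm
      exact h (hE E hEm ▸ (mem_minterms.1 hEm).1)
    have h2 : maxterms F = {∅} := by
      ext T
      rw [mem_singleton]
      refine ⟨hT T, ?_⟩
      rintro rfl
      refine mem_maxterms.2 ⟨fun hcon => h ?_, by simp⟩
      exact of_rel_empty hF hr _ _ hcon
    rw [h1, h2]; rfl

end Pool.Agent.Lib.MP_61c8b8_co
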