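import Pool.Agent.Lib.MP_61c8b8_co.Core

set_option autoImplicit false

open Finset

namespace Pool.Agent.Lib.MP_61c8b8_co

open Classical

variable {V : Type*} [Fintype V] [DecidableEq V]

/-- set the variable `x` to one -/
def up (F : Finset V → Prop) (x : V) : Finset V → Prop := fun A => F (insert x A)

/-- set the variable `x` to zero -/
noncomputable def down (F : Finset V → Prop) (x : V) : Finset V → Prop := fun A => F (A.erase x)

lemma up_mono {F : Finset V → Prop} (hF : Monotone F) (x : V) : Monotone (up F x) :=
  fun _ _ h => hF (Finset.insert_subset_insert x h)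

lemma down_mono {F : Finset V → Prop} (hF : Monotone F) (x : V) : Monotone (down F x) :=
  fun _ _ h => hF (Finset.erase_subset_erase x h)

lemma dual_down (F : Finset V → Prop) (x : V) : dual (down F x) = up (dual F) x := by
  funext A
  simp only [dual, down, up, Finset.compl_insert]

lemma dual_up (F : Finset V → Prop) (x : V) : dual (up F x) = down (dual F) x := by
  funext A
  simp only [dual, down, up, Finset.compl_erase]

lemma maxterms_up {F : Finset V → Prop} (x : V) :
    maxterms (up F x) = (maxterms F).filter (fun T => x ∉ T) := by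
  ext T
  rw [mem_filter, mem_maxterms, mem_maxterms]
  constructor
  · rintro ⟨h1, h2⟩
    have hx : x ∉ T := by
      intro hx
      have := h2 x hx
      simp only [up, Finset.insert_idem] at this
      exact h1 this
    have hx' : x ∈ Tᶜ := mem_compl.2 hx
    refine ⟨⟨?_, ?_⟩, hx⟩
    · simpa [up, Finset.insert_eq_of_mem hx'] using h1
    · intro y hy
      have := h2 y hy
      simp only [up] at this
      rwa [Finset.insert_comm, Finset.insert_eq_of_mem hx'] at this
  · rintro ⟨⟨h1, h2⟩, hx⟩
    have hx' : x ∈ Tᶜ := mem_compl.2 hx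
    refine ⟨?_, ?_⟩
    · simpa [up, Finset.insert_eq_of_mem hx'] using h1
    · intro y hy
      simp only [up]
      rw [Finset.insert_comm, Finset.insert_eq_of_mem hx']
      exact h2 y hy

lemma minterms_down {F : Finset V → Prop} (x : V) :
    minterms (down F x) = (minterms F).filter (fun T => x ∉ T) := by
  rw [← maxterms_dual, dual_down, maxterms_up, maxterms_dual]

lemma not_mem_of_mem_minterms_up {F : Finset V → Prop} {x : V} {E : Finset V}
    (hE : E ∈ minterms (up F x)) : x ∉ E := by
  intro hx
  obtain ⟨h1, h2⟩ := mem_minterms.1 hE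
  have := h2 x hx
  simp only [up, Finset.insert_erase hx] at this
  simp only [up, Finset.insert_eq_of_mem hx] at h1
  exact this h1

lemma minterms_up_cases {F : Finset V → Prop} (hF : Monotone F) {x : V} {E : Finset V}
    (hE : E ∈ minterms (up F x)) :
    (F E → E ∈ minterms F) ∧ (¬ F E → insert x E ∈ minterms F) := by
  have hx := not_mem_of_mem_minterms_up hE
  obtain ⟨h1, h2⟩ := mem_minterms.1 hE
  constructor
  · intro h
    refine mem_minterms.2 ⟨h, fun y hy hcon => h2 y hy (hF (Finset.subset_insert _ _) hcon)⟩
  · intro h
    refine mem_minterms.2 ⟨h1, fun y hy hcon => ?_⟩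
    rcases Finset.mem_insert.1 hy with rfl | hy
    · rw [Finset.erase_insert hx] at hcon
      exact h hcon
    · have hyx : y ≠ x := fun h => hx (h ▸ hy)
      apply h2 y hy
      simp only [up]
      rwa [Finset.erase_insert_of_ne hyx.symm] at hcon

lemma maxterms_down_cases {F : Finset V → Prop} (hF : Monotone F) {x : V} {T : Finset V}
    (hT : T ∈ maxterms (down F x)) : T ∈ maxterms F ∨ insert x T ∈ maxterms F := by
  rw [← minterms_dual, dual_down] at hT
  rw [← minterms_dual]
  have := minterms_up_cases (dual_mono hF) hT
  by_cases h : dual F T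
  · exact Or.inl (this.1 h)
  · exact Or.inr (this.2 h)

/-- the injection from the minterms of `F|x=1` to the minterms of `F` -/
noncomputable def psi (F : Finset V → Prop) (x : V) (E : Finset V) : Finset V :=
  if F E then E else insert x E

lemma psi_erase {F : Finset V → Prop} {x : V} {E : Finset V}
    (hE : x ∉ E) : (psi F x E).erase x = E := by
  unfold psi
  split_ifs
  · exact Finset.erase_eq_of_notMem hE
  · exact Finset.erase_insert hE

lemma psi_mem {F : Finset V → Prop} (hF : Monotone F) {x : V} {E : Finset V}
    (hE : E ∈ minterms (up F x)) : psi F x E ∈ minterms F := by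
  unfold psi
  split_ifs with h
  · exact (minterms_up_cases hF hE).1 h
  · exact (minterms_up_cases hF hE).2 h

lemma psi_injOn {F : Finset V → Prop} {x : V} :
    Set.InjOn (psi F x) (minterms (up F x) : Set (Finset V)) := by
  intro E hE E' hE' h
  have h1 := psi_erase (F := F) (not_mem_of_mem_minterms_up hE)
  have h2 := psi_erase (F := F) (not_mem_of_mem_minterms_up hE')
  rw [← h1, ← h2, h]

lemma card_minterms_up_le {F : Finset V → Prop} (hF : Monotone F) (x : V) :
    (minterms (up F x)).card ≤ (minterms F).card :=
  Finset.card_le_card_of_injOn (psi F x) (fun _ hE => psi_mem hF hE) psi_injOn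

lemma erase_mem_of_card_eq {F : Finset V → Prop} (hF : Monotone F) {x : V}
    (hc : (minterms F).card ≤ (minterms (up F x)).card) {E : Finset V} (hE : E ∈ minterms F) :
    E.erase x ∈ minterms (up F x) := by
  have himg : (minterms (up F x)).image (psi F x) = minterms F := by
    apply Finset.eq_of_subset_of_card_le
    · intro E' hE'
      obtain ⟨E1, hE1, rfl⟩ := Finset.mem_image.1 hE'
      exact psi_mem hF hE1
    · rwa [Finset.card_image_of_injOn psi_injOn]
  rw [← himg] at hE
  obtain ⟨E1, hE1, rfl⟩ := Finset.mem_image.1 hE
  rw [psi_erase (not_mem_of_mem_minterms_up hE1)]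
  exact hE1

lemma card_maxterms_down_le {F : Finset V → Prop} (hF : Monotone F) (x : V) :
    (maxterms (down F x)).card ≤ (maxterms F).card := by
  rw [← minterms_dual, ← minterms_dual, dual_down]
  exact card_minterms_up_le (dual_mono hF) x

/-- variables all of whose maxterms contain `x` -/
noncomputable def cl (F : Finset V → Prop) (x : V) : Finset V :=
  (rel F).filter (fun y => ∀ T ∈ maxterms F, y ∈ T → x ∈ T)

lemma mem_rel_up {F : Finset V → Prop} (hF : Monotone F) {x y : V} :
    y ∈ rel (up F x) ↔ y ∈ rel F ∧ y ∉ cl F x := by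
  rw [mem_rel_iff_maxterm (up_mono hF x), maxterms_up]
  constructor
  · rintro ⟨T, hT, hy⟩
    obtain ⟨hT, hx⟩ := mem_filter.1 hT
    refine ⟨(mem_rel_iff_maxterm hF).2 ⟨T, hT, hy⟩, ?_⟩
    intro hcl
    exact hx ((mem_filter.1 hcl).2 T hT hy)
  · rintro ⟨hy, hcl⟩
    have : ¬ ∀ T ∈ maxterms F, y ∈ T → x ∈ T := fun h => hcl (mem_filter.2 ⟨hy, h⟩)
    push Not at this
    obtain ⟨T, hT, hyT, hx⟩ := this
    exact ⟨T, mem_filter.2 ⟨hT, hx⟩, hyT⟩

lemma card_rel_up {F : Finset V → Prop} (hF : Monotone F) (x : V) :
    (rel (up F x)).card + (cl F x).card = (rel F).card := by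
  have h : rel (up F x) = rel F \ cl F x := by
    ext y; rw [mem_rel_up hF, mem_sdiff]
  rw [h]
  exact Finset.card_sdiff_add_card_eq_card (Finset.filter_subset _ _)

/-- number of maxterms containing `x` -/
noncomputable def dT (F : Finset V → Prop) (x : V) : ℕ :=
  ((maxterms F).filter (fun T => x ∈ T)).card

/-- number of minterms containing `x` -/
noncomputable def dE (F : Finset V → Prop) (x : V) : ℕ :=
  ((minterms F).filter (fun T => x ∈ T)).card

lemma card_maxterms_up {F : Finset V → Prop} (x : V) :
    (maxterms (up F x)).card + dT F x = (maxterms F).card := by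
  rw [maxterms_up, add_comm]
  exact Finset.card_filter_add_card_filter_not (s := maxterms F) (fun T => x ∈ T)

lemma card_minterms_down {F : Finset V → Prop} (x : V) :
    (minterms (down F x)).card + dE F x = (minterms F).card := by
  rw [minterms_down, add_comm]
  exact Finset.card_filter_add_card_filter_not (s := minterms F) (fun T => x ∈ T)

/-- twins: same maxterms -/
def Twin (F : Finset V → Prop) (x y : V) : Prop := ∀ T ∈ maxterms F, (x ∈ T ↔ y ∈ T)

lemma Twin.symm {F : Finset V → Prop} {x y : V} (h : Twin F x y) : Twin F y x :=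
  fun T hT => (h T hT).symm

lemma Twin.swap {F : Finset V → Prop} (hF : Monotone F) {x y : V} (h : Twin F x y)
    {A : Finset V} (hA : F A) : F (insert y (A.erase x)) := by
  rw [iff_forall_maxterm hF] at hA ⊢
  intro T hT
  obtain ⟨z, hz, hzT⟩ := hA T hT
  by_cases hzx : z = x
  · subst hzx
    exact ⟨y, mem_insert_self _ _, (h T hT).1 hzT⟩
  · exact ⟨z, mem_insert_of_mem (mem_erase.2 ⟨hzx, hz⟩), hzT⟩

/-- A minterm through `x'` can be swapped to a minterm avoiding `x'` -/
lemma Twin.minterm {F : Finset V → Prop} (hF : Monotone F) {x x' : V} (hne : x ≠ x')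
    (h : Twin F x' x) {E : Finset V} (hE : E ∈ minterms F) (hx' : x' ∈ E) :
    ∃ E' ∈ minterms F, x ∈ E' ∧ x' ∉ E' ∧ E = insert x' (E'.erase x) := by
  obtain ⟨E', hE', hs⟩ := exists_minterm (h.swap hF (mem_minterms.1 hE).1)
  have hxE' : x ∈ E' := by
    by_contra hcon
    have hs' : E' ⊆ E.erase x' := fun y hy => by
      rcases mem_insert.1 (hs hy) with h | h
      · exact absurd (h ▸ hy) hcon
      · exact h
    exact (mem_minterms.1 hE).2 x' hx' (hF hs' (mem_minterms.1 hE').1)
  have hx'E' : x' ∉ E' := by
    intro hcon
    rcases mem_insert.1 (hs hcon) with h | h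
    · exact hne h.symm
    · exact (mem_erase.1 h).1 rfl
  refine ⟨E', hE', hxE', hx'E', ?_⟩
  symm
  apply minterm_antichain hF hE (h.symm.swap hF (mem_minterms.1 hE').1)
  intro y hy
  rcases mem_insert.1 hy with rfl | hy
  · exact hx'
  · obtain ⟨hyx, hy⟩ := mem_erase.1 hy
    rcases mem_insert.1 (hs hy) with h | h
    · exact absurd h hyx
    · exact (mem_erase.1 h).2

lemma rel_down_twin {F : Finset V → Prop} (hF : Monotone F) {x x' : V} (hne : x ≠ x')
    (h : Twin F x' x) : (rel F).erase x' ⊆ rel (down F x') := by
  intro y hy
  obtain ⟨hyx, hy⟩ := mem_erase.1 hy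
  rw [mem_rel_iff_minterm (down_mono hF x'), minterms_down]
  obtain ⟨E, hE, hyE⟩ := (mem_rel_iff_minterm hF).1 hy
  by_cases hx' : x' ∈ E
  · obtain ⟨E', hE', hxE', hx'E', hEE'⟩ := h.minterm hF hne hE hx'
    refine ⟨E', mem_filter.2 ⟨hE', hx'E'⟩, ?_⟩
    rw [hEE'] at hyE
    rcases mem_insert.1 hyE with h | h
    · exact absurd h hyx
    · exact (mem_erase.1 h).2
  · exact ⟨E, mem_filter.2 ⟨hE, hx'⟩, hyE⟩

lemma dE_pos {F : Finset V → Prop} (hF : Monotone F) {x : V} (hx : x ∈ rel F) : 1 ≤ dE F x := by
  obtain ⟨E, hE, hxE⟩ := (mem_rel_iff_minterm hF).1 hx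
  exact Finset.card_pos.2 ⟨E, mem_filter.2 ⟨hE, hxE⟩⟩

lemma dT_pos {F : Finset V → Prop} (hF : Monotone F) {x : V} (hx : x ∈ rel F) : 1 ≤ dT F x := by
  obtain ⟨E, hE, hxE⟩ := (mem_rel_iff_maxterm hF).1 hx
  exact Finset.card_pos.2 ⟨E, mem_filter.2 ⟨hE, hxE⟩⟩

lemma rel_down_subset {F : Finset V → Prop} (hF : Monotone F) (x' : V) :
    rel (down F x') ⊆ (rel F).erase x' := by
  intro y hy
  rw [mem_rel_iff_minterm (down_mono hF x'), minterms_down] at hy
  obtain ⟨E, hE, hyE⟩ := hy
  obtain ⟨hE, hx'⟩ := mem_filter.1 hE
  exact mem_erase.2 ⟨fun h => hx' (h ▸ hyE), (mem_rel_iff_minterm hF).2 ⟨E, hE, hyE⟩⟩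

/-- consequences of zero excess for a pair of twins -/
lemma twin_excess {F : Finset V → Prop} (hF : Monotone F)
    (hex : (minterms F).card + (maxterms F).card = (rel F).card + 1)
    {x x' : V} (hne : x ≠ x') (hx' : x' ∈ rel F) (h : Twin F x' x) :
    dE F x' = 1 ∧ (minterms (down F x')).card + (maxterms (down F x')).card
      = (rel (down F x')).card + 1 := by
  have h1 := card_minterms_down (F := F) x'
  have h2 := card_maxterms_down_le hF x'
  have h3 := lower_bound (down_mono hF x')
  have h4 := dE_pos hF hx'
  have h5 : rel (down F x') = (rel F).erase x' :=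
    le_antisymm (rel_down_subset hF x') (rel_down_twin hF hne h)
  have h6 := Finset.card_erase_add_one hx'
  rw [h5] at h3 ⊢
  constructor <;> omega

/-- A function of zero excess with a relevant variable has a singleton extremal set. -/
theorem exists_singleton : ∀ (n : ℕ) (F : Finset V → Prop), Monotone F → (rel F).card = n →
    (minterms F).card + (maxterms F).card = (rel F).card + 1 → (rel F).Nonempty →
    ∃ v, {v} ∈ minterms F ∨ {v} ∈ maxterms F := by
  intro n
  induction n using Nat.strong_induction_on with
  | _ n ih =>
  intro F hF hn hex hne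
  have hF0 : ¬ F ∅ := by
    obtain ⟨x, hx⟩ := hne
    obtain ⟨A, _, h2⟩ := mem_rel.1 hx
    exact fun h => h2 (hF (Finset.empty_subset _) h)
  have hF1 : F univ := by
    obtain ⟨x, hx⟩ := hne
    obtain ⟨A, h1, _⟩ := mem_rel.1 hx
    exact hF (Finset.subset_univ _) h1
  obtain ⟨x, hx, hmin⟩ := Finset.exists_min_image (rel F) (dT F) hne
  -- classes
  have hcl : ∀ y ∈ cl F x, Twin F y x := by
    intro y hy
    obtain ⟨hyr, hyT⟩ := mem_filter.1 hy
    have hsub : (maxterms F).filter (fun T => y ∈ T) ⊆ (maxterms F).filter (fun T => x ∈ T) := by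
      intro T hT
      obtain ⟨hT, hyT'⟩ := mem_filter.1 hT
      exact mem_filter.2 ⟨hT, hyT T hT hyT'⟩
    have heq := Finset.eq_of_subset_of_card_le hsub (hmin y hyr)
    intro T hT
    constructor
    · exact hyT T hT
    · intro hxT
      have : T ∈ (maxterms F).filter (fun T => y ∈ T) := by
        rw [heq]; exact mem_filter.2 ⟨hT, hxT⟩
      exact (mem_filter.1 this).2
  have hxcl : x ∈ cl F x := mem_filter.2 ⟨hx, fun _ _ h => h⟩
  by_cases hA : cl F x = {x}
  · -- no twins
    have h1 := card_rel_up hF x
    have h2 := card_maxterms_up (F := F) x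
    have h3 := card_minterms_up_le hF x
    have h4 := lower_bound (up_mono hF x)
    have h5 := dT_pos hF hx
    rw [hA, Finset.card_singleton] at h1
    have hdT : dT F x = 1 := by omega
    have hmc : (minterms F).card ≤ (minterms (up F x)).card := by omega
    have hex1 : (minterms (up F x)).card + (maxterms (up F x)).card
      = (rel (up F x)).card + 1 := by omega
    obtain ⟨T0, hT0⟩ := Finset.card_eq_one.1 hdT
    have hT0m : T0 ∈ (maxterms F).filter (fun T => x ∈ T) := by rw [hT0]; exact mem_singleton_self _
    obtain ⟨hT0m, hxT0⟩ := mem_filter.1 hT0m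
    have huniq : ∀ T ∈ maxterms F, x ∈ T → T = T0 := by
      intro T hT hxT
      have : T ∈ (maxterms F).filter (fun T => x ∈ T) := mem_filter.2 ⟨hT, hxT⟩
      rw [hT0] at this
      exact mem_singleton.1 this
    by_cases hTx : T0 = {x}
    · exact ⟨x, Or.inr (hTx ▸ hT0m)⟩
    by_cases hr1 : (rel (up F x)).Nonempty
    · obtain ⟨v, hv⟩ := ih (rel (up F x)).card (by omega) (up F x) (up_mono hF x) rfl hex1 hr1
      rcases hv with hv | hv
      · -- `{v}` is a minterm of `F|x=1`
        have hvx : v ≠ x := by
          have := not_mem_of_mem_minterms_up hv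
          intro h; exact this (by rw [h]; exact mem_singleton_self _)
        by_cases hFv : F {v}
        · exact ⟨v, Or.inl ((minterms_up_cases hF hv).1 hFv)⟩
        · -- get another element of T0
          have hex2 : ∃ u ∈ T0, u ≠ x := by
            by_contra hcon
            push Not at hcon
            apply hTx
            ext y
            rw [mem_singleton]
            exact ⟨fun hy => hcon y hy, fun hy => hy ▸ hxT0⟩
          obtain ⟨u, huT, hux⟩ := hex2
          have hFvu : F {v, u} := by
            rw [iff_forall_maxterm hF]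
            intro T hT
            by_cases hxT : x ∈ T
            · rw [huniq T hT hxT]
              exact ⟨u, by simp, huT⟩
            · have hT1 : T ∈ maxterms (up F x) := by
                rw [maxterms_up]; exact mem_filter.2 ⟨hT, hxT⟩
              obtain ⟨z, hz1, hz2⟩ := inter_nonempty (up_mono hF x) (mem_minterms.1 hv).1
                (mem_maxterms.1 hT1).1
              rw [mem_singleton] at hz1
              subst hz1
              exact ⟨z, by simp, hz2⟩
          obtain ⟨E, hE, hEs⟩ := exists_minterm hFvu
          by_cases hvE : v ∈ E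
          · by_cases huE : u ∈ E
            · -- E.erase x = E is a minterm of F|x=1 containing {v}
              have hEx : E.erase x ∈ minterms (up F x) := erase_mem_of_card_eq hF hmc hE
              have hsub : ({v} : Finset V) ⊆ E.erase x := by
                rw [Finset.singleton_subset_iff, mem_erase]; exact ⟨hvx, hvE⟩
              have heq := minterm_antichain (up_mono hF x) hEx (mem_minterms.1 hv).1 hsub
              have hu : u ∈ E.erase x := mem_erase.2 ⟨hux, huE⟩
              rw [← heq, mem_singleton] at hu
              -- u = v : then F {v,u} = F {v}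
              rw [hu, Finset.pair_eq_singleton] at hFvu
              exact absurd hFvu hFv
            · exfalso
              apply hFv
              refine hF ?_ (mem_minterms.1 hE).1
              intro y hy
              have := hEs hy
              simp only [mem_insert, mem_singleton] at this
              rcases this with h | h
              · rw [h]; exact mem_singleton_self _
              · exact absurd (h ▸ hy) huE
          · refine ⟨u, Or.inl ?_⟩
            have hFu : F {u} := by
              refine hF ?_ (mem_minterms.1 hE).1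
              intro y hy
              have := hEs hy
              simp only [mem_insert, mem_singleton] at this
              rcases this with h | h
              · exact absurd (h ▸ hy) hvE
              · rw [h]; exact mem_singleton_self _
            refine mem_minterms.2 ⟨hFu, fun y hy => ?_⟩
            rw [mem_singleton] at hy
            subst hy
            simpa using hF0
      · rw [maxterms_up] at hv
        exact ⟨v, Or.inr (mem_filter.1 hv).1⟩
    · -- `F|x=1` is constant, so `{x}` is a minterm
      rw [Finset.not_nonempty_iff_eq_empty] at hr1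
      refine ⟨x, Or.inl ?_⟩
      have hFx : F {x} := by
        rw [iff_forall_maxterm hF]
        intro T hT
        refine ⟨x, mem_singleton_self _, ?_⟩
        by_contra hxT
        have hTne : T.Nonempty := by
          rw [Finset.nonempty_iff_ne_empty]
          rintro rfl
          exact (mem_maxterms.1 hT).1 (by simpa using hF1)
        obtain ⟨y, hy⟩ := hTne
        have : y ∈ rel (up F x) := by
          rw [mem_rel_iff_maxterm (up_mono hF x), maxterms_up]
          exact ⟨T, mem_filter.2 ⟨hT, hxT⟩, hy⟩
        rw [hr1] at this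
        exact absurd this (Finset.notMem_empty _)
      refine mem_minterms.2 ⟨hFx, fun y hy => ?_⟩
      rw [mem_singleton] at hy
      subst hy
      simpa using hF0
  · -- there is a twin
    have hex2 : ∃ x' ∈ cl F x, x' ≠ x := by
      by_contra hcon
      push Not at hcon
      apply hA
      ext y
      rw [mem_singleton]
      exact ⟨fun hy => hcon y hy, fun hy => hy ▸ hxcl⟩
    obtain ⟨x', hx'cl, hx'x⟩ := hex2
    have htw : Twin F x' x := hcl x' hx'cl
    have hx'r : x' ∈ rel F := (mem_filter.1 hx'cl).1
    obtain ⟨hd', hex'⟩ := twin_excess hF hex hx'x.symm hx'r htw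
    obtain ⟨hd, _⟩ := twin_excess hF hex hx'x hx htw.symm
    have hrel : rel (down F x') = (rel F).erase x' :=
      le_antisymm (rel_down_subset hF x') (rel_down_twin hF hx'x.symm htw)
    have hne' : (rel (down F x')).Nonempty :=
      ⟨x, by rw [hrel]; exact mem_erase.2 ⟨hx'x.symm, hx⟩⟩
    have hlt : (rel (down F x')).card < n := by
      rw [hrel, ← hn]; exact Finset.card_erase_lt_of_mem hx'r
    obtain ⟨v, hv⟩ := ih _ hlt (down F x') (down_mono hF x') rfl hex' hne'
    rcases hv with hv | hv
    · rw [minterms_down] at hv
      exact ⟨v, Or.inl (mem_filter.1 hv).1⟩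
    · rcases maxterms_down_cases hF hv with h | h
      · exact ⟨v, Or.inr h⟩
      · -- insert x' {v} is a maxterm, so x = v
        have hxv : x = v := by
          have : x ∈ insert x' ({v} : Finset V) := (htw _ h).1 (mem_insert_self _ _)
          rcases mem_insert.1 this with h | h
          · exact absurd h.symm hx'x
          · exact mem_singleton.1 h
        subst hxv
        -- minterm through x avoiding x'
        obtain ⟨E', hE', hx'E'⟩ := (mem_rel_iff_minterm hF).1 hx'r
        obtain ⟨E, hE, hxE, hx'E, hEE⟩ := htw.minterm hF hx'x.symm hE' hx'E'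
        have huE : ∀ G ∈ minterms F, x ∈ G → G = E := by
          obtain ⟨G0, hG0⟩ := Finset.card_eq_one.1 hd
          intro G hG hxG
          have h1 : G ∈ (minterms F).filter (fun T => x ∈ T) := mem_filter.2 ⟨hG, hxG⟩
          have h2 : E ∈ (minterms F).filter (fun T => x ∈ T) := mem_filter.2 ⟨hE, hxE⟩
          rw [hG0, mem_singleton] at h1 h2
          rw [h1, h2]
        have huE' : ∀ G ∈ minterms F, x' ∈ G → G = E' := by
          obtain ⟨G0, hG0⟩ := Finset.card_eq_one.1 hd'
          intro G hG hxG
          have h1 : G ∈ (minterms F).filter (fun T => x' ∈ T) := mem_filter.2 ⟨hG, hxG⟩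
          have h2 : E' ∈ (minterms F).filter (fun T => x' ∈ T) := mem_filter.2 ⟨hE', hx'E'⟩
          rw [hG0, mem_singleton] at h1 h2
          rw [h1, h2]
        have hall : ∀ G ∈ minterms F, G = E ∨ G = E' := by
          intro G hG
          obtain ⟨z, hz1, hz2⟩ := inter_nonempty hF (mem_minterms.1 hG).1 (mem_maxterms.1 h).1
          rcases mem_insert.1 hz2 with rfl | hz2
          · exact Or.inr (huE' G hG hz1)
          · rw [mem_singleton] at hz2
            subst hz2
            exact Or.inl (huE G hG hz1)
        by_cases hg : ∃ g ∈ E, g ≠ x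
        · obtain ⟨g, hgE, hgx⟩ := hg
          have hgE' : g ∈ E' := by
            rw [hEE]; exact mem_insert_of_mem (mem_erase.2 ⟨hgx, hgE⟩)
          refine ⟨g, Or.inr (mem_maxterms.2 ⟨?_, ?_⟩)⟩
          · intro hcon
            obtain ⟨G, hG, hGs⟩ := exists_minterm hcon
            have hgG : g ∈ G := by
              rcases hall G hG with rfl | rfl
              · exact hgE
              · exact hgE'
            have := hGs hgG
            simp at this
          · intro y hy
            rw [mem_singleton] at hy
            subst hy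
            have : insert y ({y} : Finset V)ᶜ = univ := by
              ext z; by_cases hz : z = y <;> simp [hz]
            rw [this]; exact hF1
        · push Not at hg
          refine ⟨x, Or.inl ?_⟩
          have : E = {x} := by
            ext y
            rw [mem_singleton]
            exact ⟨fun hy => hg y hy, fun hy => hy ▸ hxE⟩
          rw [← this]; exact hE

end Pool.Agent.Lib.MP_61c8b8_co
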